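import Pool.Agent.N783.CF.WR

/-!
# From the roots to the field (project WR of helper783, leaf WF, helper914)
-/

set_option autoImplicit false
set_option linter.all false

open Polynomial NumberField
open scoped Classical

namespace Pool.Agent.N914.WR

open Pool.Agent.N783.PF (Bd Ht dsc fF SqF IsGen Fam GoodS GoodF LBad Cg sp rd)
open Pool.Agent.N783.CF

section

variable {K : Type} [Field K] [NumberField K] {M L : IntermediateField K (AlgebraicClosure K)}
  [NumberField M] [NumberField L] (hML : M ≤ L) {f : (𝓞 M)[X]} {θ : L}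

/-- the restriction of an embedding -/
noncomputable abbrev rs (ψ : L →ₐ[K] AlgebraicClosure K) : M →ₐ[K] AlgebraicClosure K :=
  ψ.comp (IntermediateField.inclusion hML)

/-- an embedding is determined by its restriction and the value at `θ` -/
theorem uniq {n : ℕ} (hgen : ∀ x : L, ∃ c : Fin n → M, x.1 = ∑ i, (c i).1 * θ.1 ^ (i : ℕ))
    {ψ ψ' : L →ₐ[K] AlgebraicClosure K} (h1 : rs hML ψ = rs hML ψ') (h2 : ψ θ = ψ' θ) :
    ψ = ψ' := by
  refine AlgHom.ext fun x => ?_
  obtain ⟨c, hc⟩ := hgen x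
  have hx : x = ∑ i, IntermediateField.inclusion hML (c i) * θ ^ (i : ℕ) := by
    apply Subtype.ext
    rw [hc]
    have h3 : L.val (∑ i, IntermediateField.inclusion hML (c i) * θ ^ (i : ℕ)) =
        ∑ i, (c i).1 * θ.1 ^ (i : ℕ) := by
      rw [map_sum]
      refine Finset.sum_congr rfl fun i _ => ?_
      rw [map_mul, map_pow]
      rfl
    exact h3.symm
  rw [hx, map_sum, map_sum]
  refine Finset.sum_congr rfl fun i _ => ?_
  rw [map_mul, map_mul, map_pow, map_pow, h2]
  have h3 := DFunLike.congr_fun h1 (c i)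
  have h4 : ψ (IntermediateField.inclusion hML (c i)) =
      ψ' (IntermediateField.inclusion hML (c i)) := h3
  rw [h4]

/-- the value at `θ` is a root -/
theorem root (hθ : θ.1 ∈ Zr M M.val f) (ψ : L →ₐ[K] AlgebraicClosure K) :
    ψ θ ∈ Zr M (rs hML ψ) f := by
  have h1 : (f.map (((IntermediateField.inclusion hML : M →ₐ[K] L) : M →+* L).comp
      (algebraMap (𝓞 M) M))).eval θ = 0 := by
    apply (L.val : L →ₐ[K] AlgebraicClosure K).injective
    rw [map_zero]
    have h2 := Polynomial.hom_eval₂ f (((IntermediateField.inclusion hML : M →ₐ[K] L) : M →+* L).comp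
      (algebraMap (𝓞 M) M)) (L.val : L →+* AlgebraicClosure K) θ
    rw [← Polynomial.eval_map, ← Polynomial.eval_map] at h2
    have h3 : (f.map ((M.val : M →+* AlgebraicClosure K).comp (algebraMap (𝓞 M) M))).eval θ.1 = 0 :=
      hθ
    exact h2.trans h3
  have h2 := Polynomial.hom_eval₂ f (((IntermediateField.inclusion hML : M →ₐ[K] L) : M →+* L).comp
    (algebraMap (𝓞 M) M)) (ψ : L →+* AlgebraicClosure K) θ
  rw [← Polynomial.eval_map, ← Polynomial.eval_map, h1, map_zero] at h2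
  exact h2.symm

/-- every pair occurs -/
theorem exi (hmon : f.Monic) (hirr : Irreducible (fF f)) (hθ : θ.1 ∈ Zr M M.val f)
    (φ : M →ₐ[K] AlgebraicClosure K) {z : AlgebraicClosure K} (hz : z ∈ Zr M φ f) :
    ∃ ψ : L →ₐ[K] AlgebraicClosure K, rs hML ψ = φ ∧ ψ θ = z := by
  have halg : Algebra.IsAlgebraic M (AlgebraicClosure K) := Algebra.IsAlgebraic.tower_top (K := K) M
  obtain ⟨ρ₀, hρ₀⟩ := IsAlgClosed.surjective_domRestrict_of_isAlgebraic (K := K) (L := M)
    (M := AlgebraicClosure K) (E := AlgebraicClosure K) φ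
  have hρ₀' : ∀ m : M, ρ₀ (m : AlgebraicClosure K) = φ m := fun m => DFunLike.congr_fun hρ₀ m
  have hbij : Function.Bijective ρ₀ := Algebra.IsAlgebraic.algHom_bijective ρ₀
  obtain ⟨z₁, hz₁⟩ := hbij.2 z
  have hz1 : aeval z₁ (fF f) = 0 := by
    apply hbij.1
    rw [map_zero]
    have h2 := Polynomial.hom_eval₂ f ((algebraMap M (AlgebraicClosure K)).comp
      (algebraMap (𝓞 M) M)) (ρ₀ : AlgebraicClosure K →+* AlgebraicClosure K) z₁
    have h3 : (ρ₀ : AlgebraicClosure K →+* AlgebraicClosure K).comp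
        ((algebraMap M (AlgebraicClosure K)).comp (algebraMap (𝓞 M) M)) =
        (φ : M →+* AlgebraicClosure K).comp (algebraMap (𝓞 M) M) := by
      ext a
      exact hρ₀' _
    rw [h3] at h2
    have h4 : (f.map ((φ : M →+* AlgebraicClosure K).comp (algebraMap (𝓞 M) M))).eval z = 0 := hz
    rw [Polynomial.eval_map, ← hz₁] at h4
    have h5 : aeval z₁ (fF f) = f.eval₂ ((algebraMap M (AlgebraicClosure K)).comp
      (algebraMap (𝓞 M) M)) z₁ := by
      rw [Polynomial.aeval_def, Polynomial.eval₂_map]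
    rw [h5]
    exact h2.trans h4
  have hθ1 : aeval θ.1 (fF f) = 0 := by
    have h3 : (f.map ((M.val : M →+* AlgebraicClosure K).comp (algebraMap (𝓞 M) M))).eval θ.1 = 0 :=
      hθ
    rw [Polynomial.eval_map] at h3
    rw [Polynomial.aeval_def, Polynomial.eval₂_map]
    exact h3
  have hm : (fF f).Monic := hmon.map _
  have hconj : IsConjRoot M z₁ θ.1 := by
    have h1 := minpoly.eq_of_irreducible_of_monic hirr hz1 hm
    have h2 := minpoly.eq_of_irreducible_of_monic hirr hθ1 hm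
    exact h1.symm.trans h2
  have hac : IsAlgClosure M (AlgebraicClosure K) := ⟨inferInstance, halg⟩
  have hnorm : Normal M (AlgebraicClosure K) := IsAlgClosure.normal M (AlgebraicClosure K)
  obtain ⟨σ₁, hσ₁⟩ := isConjRoot_iff_exists_algEquiv.1 hconj
  refine ⟨(ρ₀.comp (σ₁.toAlgHom.restrictScalars K)).comp L.val, ?_, ?_⟩
  · refine AlgHom.ext fun m => ?_
    have h1 : σ₁ (algebraMap M (AlgebraicClosure K) m) = algebraMap M (AlgebraicClosure K) m :=
      σ₁.commutes m
    show ρ₀ (σ₁ (m : AlgebraicClosure K)) = φ m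
    have h2 : σ₁ (m : AlgebraicClosure K) = (m : AlgebraicClosure K) := h1
    rw [h2]
    exact hρ₀' m
  · show ρ₀ (σ₁ (θ : AlgebraicClosure K)) = z
    rw [hσ₁, hz₁]

end

/-- from the roots to the field -/
theorem t_WF : S_WF := by
  intro g K _ _ M L _ _ hML f θ hmon _ hirr hθ hgen hWr
  refine ⟨hML, fun τ hτ => ?_⟩
  obtain ⟨ρ, hρ⟩ := hτ
  have hρ' : ∀ ψ : L →ₐ[K] AlgebraicClosure K, rs hML (τ ψ) = ρ.toAlgHom.comp (rs hML ψ) := hρ
  have hex : ∀ (φ : M →ₐ[K] AlgebraicClosure K) (z : AlgebraicClosure K), z ∈ Zr M φ f →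
      ∃ ψ : L →ₐ[K] AlgebraicClosure K, rs hML ψ = φ ∧ ψ θ = z :=
    fun φ z hz => exi hML hmon hirr hθ φ hz
  choose e he1 he2 using hex
  obtain ⟨u, hu⟩ : ∃ u : (M →ₐ[K] AlgebraicClosure K) → AlgebraicClosure K → AlgebraicClosure K,
      ∀ φ z (hz : z ∈ Zr M φ f), u φ z = (τ (e φ z hz)) θ :=
    ⟨fun φ z => if hz : z ∈ Zr M φ f then (τ (e φ z hz)) θ else z, fun φ z hz => dif_pos hz⟩
  have hbij : ∀ φ : M →ₐ[K] AlgebraicClosure K,
      Set.BijOn (u φ) (Zr M φ f) (Zr M (ρ.toAlgHom.comp φ) f) := by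
    intro φ
    refine ⟨?_, ?_, ?_⟩
    · intro z hz
      rw [hu φ z hz]
      have h1 := root hML hθ (τ (e φ z hz))
      rw [hρ', he1] at h1
      exact h1
    · intro z hz z' hz' h
      rw [hu φ z hz, hu φ z' hz'] at h
      have h1 : τ (e φ z hz) = τ (e φ z' hz') := by
        refine uniq hML hgen ?_ h
        rw [hρ', hρ', he1, he1]
      have h2 := τ.injective h1
      rw [← he2 φ z hz, ← he2 φ z' hz', h2]
    · intro z' hz'
      obtain ⟨ψ', h1, h2⟩ := exi hML hmon hirr hθ _ hz'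
      obtain ⟨ψ, rfl⟩ := τ.surjective ψ'
      rw [hρ'] at h1
      have h3 : rs hML ψ = φ := by
        refine AlgHom.ext fun m => ?_
        have h4 := DFunLike.congr_fun h1 m
        exact ρ.injective h4
      have h5 : ψ θ ∈ Zr M φ f := by
        have h6 := root hML hθ ψ
        rwa [h3] at h6
      refine ⟨ψ θ, h5, ?_⟩
      rw [hu φ _ h5, ← h2]
      have h7 : e φ (ψ θ) h5 = ψ := by
        refine uniq hML hgen ?_ ?_
        · rw [he1, h3]
        · rw [he2]
      rw [h7]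
  obtain ⟨σ, hσ⟩ := hWr ρ u hbij
  refine ⟨σ, fun ψ => ?_⟩
  have hz : ψ θ ∈ Zr M (rs hML ψ) f := root hML hθ ψ
  refine uniq hML hgen ?_ ?_
  · rw [hρ', ← (hσ (rs hML ψ)).1]
    rfl
  · have h1 := (hσ (rs hML ψ)).2 _ hz
    rw [hu _ _ hz] at h1
    have h7 : e (rs hML ψ) (ψ θ) hz = ψ := by
      refine uniq hML hgen ?_ ?_
      · rw [he1]
      · rw [he2]
    rw [h7] at h1
    exact h1.symm

end Pool.Agent.N914.WR
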